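import Mathlib
import Pool.Agent.Helper75.LadderGroup

/-!
# A topological group with an `ω^ω`-base and no suitable set

We construct in ZFC a Boolean (hence Abelian) Tychonoff topological group `G` with an `ω^ω`-base
which has no suitable set. Moreover `G` has a base at the neutral element of open subgroups and its
continuous characters separate points.

Let `b` be the least size of a family in `ℕ → ℕ` that is unbounded modulo finite sets; it is a
regular uncountable cardinal. `G` is the group of functions `b → ZMod 2` generated by the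
characteristic functions of points and of one chosen cofinal `ω`-sequence (ladder) in every ordinal
`l < b` of cofinality `ω`. The subgroups `V_ξ = {g : g vanishes below ξ}`, `ξ < b`, form a base of
neighbourhoods of the neutral element.
-/

open Set Filter Topology

namespace Pool.Agent.Results.MP_1d7995_gt.NoSuitableSet

/-- `S` is a suitable set for the topological group `G`: it is a discrete subspace, `S ∪ {1}` is
closed and the subgroup generated by `S` is dense. -/
def IsSuitable {G : Type} [Group G] [TopologicalSpace G] (S : Set G) : Prop :=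
  DiscreteTopology S ∧ IsClosed (S ∪ {1}) ∧ Dense (Subgroup.closure S : Set G)

/-- `X` has an `ω^ω`-base: every point `x` has a neighbourhood base `(U α)` indexed by all
`α : ℕ → ℕ` with `U β ⊆ U α` whenever `α ≤ β` pointwise. -/
def HasOmegaOmegaBase (X : Type) [TopologicalSpace X] : Prop :=
  ∀ x : X, ∃ U : (ℕ → ℕ) → Set X,
    (∀ α β : ℕ → ℕ, (∀ n, α n ≤ β n) → U β ⊆ U α) ∧ (𝓝 x).HasBasis (fun _ => True) U

open Pool.Agent.Helper75.Ladder in
/-- There is a Tychonoff topological group with an `ω^ω`-base which has no suitable set. It can be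
taken Boolean (so Abelian), with a base at `1` of open subgroups, and such that the continuous
homomorphisms to the circle separate points. -/
theorem result : ∃ (G : Type) (_ : CommGroup G) (_ : TopologicalSpace G),
    IsTopologicalGroup G ∧ T35Space G ∧ HasOmegaOmegaBase G ∧
    (∀ g : G, g * g = 1) ∧ NonarchimedeanGroup G ∧
    (∀ g : G, g ≠ 1 → ∃ χ : G →* Circle, Continuous χ ∧ χ g ≠ 1) ∧
    ¬ ∃ S : Set G, IsSuitable S := by
  obtain ⟨I, _, hI, ρ, hρ, hcof⟩ := exists_goodIndex
  have := hI.nonempty
  refine ⟨LG I, inferInstance, ltop, ltop_group, ltop_t35 hI, ?_, vec_sq, ltop_nonarch, ?_, ?_⟩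
  · intro x
    refine ⟨fun α => {y | tr (ρ α) (vec I y) = tr (ρ α) (vec I x)}, ?_, ?_⟩
    · intro α β hαβ y hy
      exact tr_eq_mono (hρ hαβ) hy
    · refine ⟨fun t => ?_⟩
      rw [(nhds_basis x).mem_iff]
      constructor
      · rintro ⟨ξ, -, hξ⟩
        obtain ⟨α, hα⟩ := hcof ξ
        exact ⟨α, trivial, fun y hy => hξ (tr_eq_mono hα hy)⟩
      · rintro ⟨α, -, hα⟩
        exact ⟨ρ α, trivial, hα⟩
  · intro g hg
    obtain ⟨i, hi⟩ := chi_separate g hg
    exact ⟨chi i, chi_continuous hI i, hi⟩
  · rintro ⟨S, hdisc, hclosed, hdense⟩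
    exact ltop_no_suitable hI S hdisc hclosed hdense

end Pool.Agent.Results.MP_1d7995_gt.NoSuitableSet
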